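import Mathlib
import Pool.Agent.N503.WI2
import Pool.Agent.Y503.RB.All

/-!
The mean curvature of slice discs in hyperbolic four-space.
-/

set_option autoImplicit false

namespace Pool.Agent.U1.HM

open scoped ContDiff RealInnerProductSpace ENNReal NNReal Topology
open MeasureTheory Set Metric Filter
open Pool.Agent.Y503.RB Pool.Agent.N503.ML Pool.Agent.N15.RC Pool.Agent.N503.WI

/-- The mean curvature vector (half of the trace of the second fundamental form) of the surface at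
`φ z` with respect to the hyperbolic metric `4 |dx|² / (1 - |x|²)²` of the unit ball, rescaled such
that its Euclidean length is its hyperbolic length: `(1 - |φ|²) / 2` times the Euclidean mean
curvature vector, minus the normal component of the position vector (conformal change of the
metric). -/
noncomputable def hypMean (φ : ℂ → E4) (z : ℂ) : E4 :=
  ((1 - ‖φ z‖ ^ 2) / 2) • meanCurv φ z -
    (LinearMap.range (fderiv ℝ φ z).toLinearMap)ᗮ.starProjection (φ z)

/-- The density of the hyperbolic area. -/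
noncomputable def hypArea (φ : ℂ → E4) (z : ℂ) : ℝ :=
  4 / (1 - ‖φ z‖ ^ 2) ^ 2 * √(fffDet φ z)

/-- The value at `p` of the Poisson kernel of the point of the unit sphere opposite to `n`. -/
noncomputable def pois (p n : E4) : ℝ := (1 - ‖p‖ ^ 2) / ‖p + n‖ ^ 2

/-- Density of the directed excess of the mean curvature over `1`. -/
noncomputable def densH (φ : ℂ → E4) (n : E4) (z : ℂ) : ℝ :=
  pois (φ z) n ^ 3 * (max (⟪hypMean φ z, n⟫ - 1) 0) ^ 2 * hypArea φ z

/-- The directed excess: the integral over the disc (hyperbolic area) and over the circles of unit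
normal vectors `n` of `P ^ 3 * ((H·n - 1)_+)²`, `P = pois (φ z) n`. (All `L` in the supremum give the
same value.) -/
noncomputable def excessDir (φ : ℂ → E4) : ℝ≥0∞ :=
  ∫⁻ z in ball (0 : ℂ) 1, ⨆ (L : ℂ →ₗᵢ[ℝ] E4) (_ : ∀ w v : ℂ, ⟪L w, d1 φ v z⟫ = 0),
    ∫⁻ θ in Ico 0 (2 * Real.pi), ENNReal.ofReal (densH φ (L ⟨Real.cos θ, Real.sin θ⟩) z)

/-- The excess: the integral over the disc (hyperbolic area) of `exp (3 r) * ((|H| - 1)_+)²`, where
`r` is the hyperbolic distance from the origin, `exp r = (1 + |φ|) / (1 - |φ|)`. -/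
noncomputable def excess (φ : ℂ → E4) : ℝ≥0∞ :=
  ∫⁻ z in ball (0 : ℂ) 1, ENNReal.ofReal
    (((1 + ‖φ z‖) / (1 - ‖φ z‖)) ^ 3 * (max (‖hypMean φ z‖ - 1) 0) ^ 2 * hypArea φ z)

theorem inner_hypMean {φ : ℂ → E4} {z : ℂ} {n : E4} (hn : ∀ v : ℂ, ⟪n, d1 φ v z⟫ = 0) :
    ⟪hypMean φ z, n⟫ = (1 - ‖φ z‖ ^ 2) / 2 * ⟪meanCurv φ z, n⟫ - ⟪φ z, n⟫ := by
  have hmem : n ∈ (LinearMap.range (fderiv ℝ φ z).toLinearMap)ᗮ := by
    rw [Submodule.mem_orthogonal]
    rintro x ⟨v, rfl⟩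
    rw [real_inner_comm]
    exact hn v
  unfold hypMean
  rw [inner_sub_left, real_inner_smul_left, Submodule.inner_starProjection_left_eq_right,
    Submodule.starProjection_eq_self_iff.2 hmem]

theorem one_add_pos {p n : E4} (hp : ‖p‖ < 1) (hn : ‖n‖ = 1) : 1 - ‖p‖ ≤ 1 + ⟪p, n⟫ := by
  have := abs_real_inner_le_norm p n
  rw [hn, mul_one] at this
  have := (abs_le.1 this).1
  linarith

theorem norm_add_sq' {p n : E4} (hn : ‖n‖ = 1) :
    ‖p + n‖ ^ 2 = 1 + 2 * ⟪p, n⟫ + ‖p‖ ^ 2 := by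
  rw [norm_add_sq_real, hn]
  ring

theorem rad_ratio {p n : E4} (hp : ‖p‖ < 1) (hn : ‖n‖ = 1) :
    0 < rad p n ∧ 0 < 1 - rad p n ∧ rad p n / (1 - rad p n) = pois p n := by
  have h1 := one_add_pos hp hn
  have h2 : 0 < 1 + ⟪p, n⟫ := by linarith
  have h3 : 0 < 1 - ‖p‖ ^ 2 := by nlinarith [norm_nonneg p]
  have h0 : 0 < rad p n := by
    unfold rad
    positivity
  have h4 : 0 < ‖p + n‖ ^ 2 := by
    rw [norm_add_sq' hn]
    have := abs_real_inner_le_norm p n
    rw [hn, mul_one] at this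
    have := (abs_le.1 this).1
    nlinarith [norm_nonneg p]
  have h5 : 1 - rad p n = ‖p + n‖ ^ 2 / (2 * (1 + ⟪p, n⟫)) := by
    rw [norm_add_sq' hn]
    unfold rad
    field_simp
    ring
  refine ⟨h0, ?_, ?_⟩
  · rw [h5]
    positivity
  · rw [h5]
    unfold rad pois
    field_simp

theorem pois_le {p n : E4} (hp : ‖p‖ < 1) (hn : ‖n‖ = 1) :
    0 ≤ pois p n ∧ pois p n ≤ (1 + ‖p‖) / (1 - ‖p‖) := by
  have h0 := norm_nonneg p
  have h3 : 0 < 1 - ‖p‖ := by linarith
  have h4 : (1 - ‖p‖) ^ 2 ≤ ‖p + n‖ ^ 2 := by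
    rw [norm_add_sq' hn]
    have := abs_real_inner_le_norm p n
    rw [hn, mul_one] at this
    have := (abs_le.1 this).1
    nlinarith
  have h5 : 0 < ‖p + n‖ ^ 2 := lt_of_lt_of_le (by positivity) h4
  unfold pois
  refine ⟨div_nonneg (by nlinarith) h5.le, ?_⟩
  rw [div_le_div_iff₀ h5 h3]
  nlinarith

theorem dens_le_densH {φ : ℂ → E4} {z : ℂ} (hi : Function.Injective (fderiv ℝ φ z))
    (hp : ‖φ z‖ < 1) {n : E4} (hn1 : ‖n‖ = 1) (hn : ∀ v : ℂ, ⟪n, d1 φ v z⟫ = 0) :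
    dens φ n z ≤ densH φ n z := by
  have hd := fffDet_pos hi
  obtain ⟨r0, r1, r2⟩ := rad_ratio hp hn1
  have hp0 := norm_nonneg (φ z)
  have hA : 0 < 1 - ‖φ z‖ ^ 2 := by nlinarith
  have hB : 0 < 1 + ⟪φ z, n⟫ := by linarith [one_add_pos hp hn1]
  have hH0 : 0 ≤ densH φ n z := by
    unfold densH hypArea
    have := (pois_le hp hn1).1
    positivity
  unfold dens
  split_ifs with h
  swap
  · exact hH0
  obtain ⟨e1, e2⟩ := h
  have hE : 0 < fff φ 1 1 z := by
    unfold fff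
    rw [real_inner_self_eq_norm_sq]
    have : d1 φ 1 z ≠ 0 := by
      intro h
      have h0 : fderiv ℝ φ z 1 = fderiv ℝ φ z 0 := by rw [map_zero]; exact h
      exact one_ne_zero (hi h0)
    positivity
  have hd' : 0 < fff φ 1 1 z * fff φ Complex.I Complex.I z - fff φ 1 Complex.I z ^ 2 := hd
  have ed : fffDet φ z = fff φ 1 1 z * fff φ Complex.I Complex.I z - fff φ 1 Complex.I z ^ 2 := rfl
  have ex : excDet φ n z = exc φ n 1 1 z * exc φ n Complex.I Complex.I z -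
    exc φ n 1 Complex.I z ^ 2 := rfl
  have key := trace_sq (L := exc φ n 1 1 z) (M := exc φ n 1 Complex.I z)
    (N := exc φ n Complex.I Complex.I z) hE hd'.le
  have kpos := trace_pos (G := fff φ Complex.I Complex.I z) (F := fff φ 1 Complex.I z)
    (N := exc φ n Complex.I Complex.I z) (M := exc φ n 1 Complex.I z) hE hd' e1 e2
  rw [← ed, ← ex] at key
  -- the trace
  have hM := inner_meanCurv hn
  have hT : fff φ 1 1 z * exc φ n Complex.I Complex.I z
      - 2 * fff φ 1 Complex.I z * exc φ n 1 Complex.I z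
      + fff φ Complex.I Complex.I z * exc φ n 1 1 z =
      2 * fffDet φ z * (rad (φ z) n * ⟪meanCurv φ z, n⟫ - 1) := by
    rw [hM]
    unfold exc
    have hne : fffDet φ z ≠ 0 := hd.ne'
    field_simp
    rw [ed]
    ring
  rw [hT] at key kpos
  set x := rad (φ z) n * ⟪meanCurv φ z, n⟫ - 1 with hx
  have hx0 : 0 < x := by
    by_contra hc
    have : 2 * fffDet φ z * x ≤ 0 := mul_nonpos_of_nonneg_of_nonpos (by positivity) (not_lt.1 hc)
    linarith
  have h1 : excDet φ n z ≤ fffDet φ z * x ^ 2 := by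
    have : 4 * fffDet φ z * excDet φ n z ≤ 4 * fffDet φ z * (fffDet φ z * x ^ 2) := by
      nlinarith [key]
    exact le_of_mul_le_mul_left this (by positivity)
  -- the mean curvature
  have hh : ⟪hypMean φ z, n⟫ - 1 = (1 + ⟪φ z, n⟫) * x := by
    rw [inner_hypMean hn, hx]
    unfold rad
    field_simp
    ring
  have hr : rad (φ z) n = (1 - ‖φ z‖ ^ 2) / (2 * (1 + ⟪φ z, n⟫)) := rfl
  unfold dens0 densH hypArea
  rw [abs_of_pos e2, hh, max_eq_left (by positivity), ← r2]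
  have hs : 0 < √(fffDet φ z) := Real.sqrt_pos.2 hd
  have hss : √(fffDet φ z) ^ 2 = fffDet φ z := Real.sq_sqrt hd.le
  have h2 : (rad (φ z) n / (1 - rad (φ z) n)) ^ 3 * ((1 + ⟪φ z, n⟫) * x) ^ 2 *
      (4 / (1 - ‖φ z‖ ^ 2) ^ 2 * √(fffDet φ z)) =
      rad (φ z) n / (1 - rad (φ z) n) ^ 3 * (fffDet φ z * x ^ 2) / √(fffDet φ z) := by
    have e3 : (1 + ⟪φ z, n⟫) ^ 2 * (4 / (1 - ‖φ z‖ ^ 2) ^ 2) * rad (φ z) n ^ 2 = 1 := by
      rw [hr]
      field_simp
      ring
    have e4 : fffDet φ z * x ^ 2 / √(fffDet φ z) = √(fffDet φ z) * x ^ 2 := by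
      rw [div_eq_iff hs.ne']
      linear_combination (-(x ^ 2)) * hss
    rw [mul_div_assoc, e4]
    obtain ⟨q, hq⟩ : ∃ q, q = 1 - rad (φ z) n := ⟨_, rfl⟩
    obtain ⟨B, hB'⟩ : ∃ B, B = 4 / (1 - ‖φ z‖ ^ 2) ^ 2 := ⟨_, rfl⟩
    rw [← hB'] at e3 ⊢
    rw [← hq]
    calc _ = rad (φ z) n / q ^ 3 *
          ((1 + ⟪φ z, n⟫) ^ 2 * B * rad (φ z) n ^ 2) *
          (√(fffDet φ z) * x ^ 2) := by ring
      _ = _ := by rw [e3]; ring
  rw [h2]
  refine div_le_div_of_nonneg_right ?_ hs.le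
  exact mul_le_mul_of_nonneg_left h1 (by positivity)

/-- unit vectors of the circle -/
theorem unitL (L : ℂ →ₗᵢ[ℝ] E4) (θ : ℝ) : ‖L ⟨Real.cos θ, Real.sin θ⟩‖ = 1 := by
  rw [L.norm_map]
  have : ‖(⟨Real.cos θ, Real.sin θ⟩ : ℂ)‖ ^ 2 = 1 := by
    rw [← Complex.normSq_eq_norm_sq, Complex.normSq_mk]
    have := Real.sin_sq_add_cos_sq θ
    nlinarith
  have h0 := norm_nonneg (⟨Real.cos θ, Real.sin θ⟩ : ℂ)
  nlinarith

theorem curv_le_dir {φ : ℂ → E4} (hi : ∀ z ∈ ball (0 : ℂ) 1, Function.Injective (fderiv ℝ φ z))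
    (hp : ∀ z ∈ ball (0 : ℂ) 1, ‖φ z‖ < 1) :
    ∫⁻ z in ball (0 : ℂ) 1, curvAt φ z ≤ excessDir φ := by
  unfold excessDir
  refine setLIntegral_mono' isOpen_ball.measurableSet fun z hz => ?_
  unfold curvAt
  refine iSup₂_mono fun L hL => ?_
  refine lintegral_mono fun θ => ENNReal.ofReal_le_ofReal ?_
  exact dens_le_densH (hi z hz) (hp z hz) (unitL L θ) (hL _)

theorem dir_point {φ : ℂ → E4} {z : ℂ} (hp : ‖φ z‖ < 1) (L : ℂ →ₗᵢ[ℝ] E4) :
    ∫⁻ θ in Ico 0 (2 * Real.pi), ENNReal.ofReal (densH φ (L ⟨Real.cos θ, Real.sin θ⟩) z) ≤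
      ENNReal.ofReal (Real.pi / 2) * ENNReal.ofReal
    (((1 + ‖φ z‖) / (1 - ‖φ z‖)) ^ 3 * (max (‖hypMean φ z‖ - 1) 0) ^ 2 * hypArea φ z) := by
  have hp0 := norm_nonneg (φ z)
  have hA : 0 < 1 - ‖φ z‖ ^ 2 := by nlinarith
  have hpi := Real.pi_pos
  set H := hypMean φ z with hH
  set a := ⟪H, L 1⟫ with ha
  set b := ⟪H, L Complex.I⟫ with hb
  have hLn : ∀ θ : ℝ, L ⟨Real.cos θ, Real.sin θ⟩ = Real.cos θ • L 1 + Real.sin θ • L Complex.I := by
    intro θ
    rw [← L.map_smul, ← L.map_smul, ← map_add]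
    congr 1
    apply Complex.ext <;> simp [Complex.cos_ofReal_re, Complex.sin_ofReal_re]
  have hin : ∀ θ : ℝ, ⟪H, L ⟨Real.cos θ, Real.sin θ⟩⟫ = a * Real.cos θ + b * Real.sin θ := by
    intro θ
    rw [hLn, inner_add_right, real_inner_smul_right, real_inner_smul_right, ha, hb]
    ring
  have hab : a ^ 2 + b ^ 2 ≤ ‖H‖ ^ 2 := by
    have u1 : ⟪L 1, L 1⟫ = (1 : ℝ) := by
      rw [real_inner_self_eq_norm_sq, L.norm_map]; simp
    have u2 : ⟪L Complex.I, L Complex.I⟫ = (1 : ℝ) := by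
      rw [real_inner_self_eq_norm_sq, L.norm_map]; simp
    have u3 : ⟪L 1, L Complex.I⟫ = (0 : ℝ) := by
      rw [L.inner_map_map]; simp [Complex.inner]
    have u4 : ⟪L Complex.I, L 1⟫ = (0 : ℝ) := by rw [real_inner_comm]; exact u3
    have h0 : 0 ≤ ‖H - (a • L 1 + b • L Complex.I)‖ ^ 2 := by positivity
    rw [← real_inner_self_eq_norm_sq] at h0
    simp only [inner_sub_left, inner_sub_right, inner_add_left, inner_add_right,
      real_inner_smul_left, real_inner_smul_right, u1, u2, u3, u4,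
      real_inner_comm H (L 1), real_inner_comm H (L Complex.I)] at h0
    rw [real_inner_self_eq_norm_sq] at h0
    nlinarith [h0]
  -- the amplitude
  set A := √(a ^ 2 + b ^ 2) with hAdef
  have hA0 : 0 ≤ A := Real.sqrt_nonneg _
  have hAs : A ^ 2 = a ^ 2 + b ^ 2 := Real.sq_sqrt (by positivity)
  have hAH : A ≤ ‖H‖ := by
    refine Real.sqrt_le_iff.2 ⟨norm_nonneg _, hab⟩
  set M := max (‖H‖ - 1) 0 with hM
  have hM0 : 0 ≤ M := le_max_right _ _
  set P := (1 + ‖φ z‖) / (1 - ‖φ z‖) with hP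
  have hP0 : 0 ≤ P := div_nonneg (by linarith) (by linarith)
  have hAr : 0 ≤ hypArea φ z := by unfold hypArea; positivity
  -- the pointwise bound
  have hpt : ∀ θ : ℝ, densH φ (L ⟨Real.cos θ, Real.sin θ⟩) z ≤
      (if 0 < a * Real.cos θ + b * Real.sin θ then
        ((if A = 0 then 0 else a / A) * Real.cos θ + (if A = 0 then 0 else b / A) * Real.sin θ) ^ 2
        else 0) * (P ^ 3 * M ^ 2 * hypArea φ z) := by
    intro θ
    have hP1 := pois_le hp (unitL L θ)
    have hP3 : pois (φ z) (L ⟨Real.cos θ, Real.sin θ⟩) ^ 3 ≤ P ^ 3 :=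
      pow_le_pow_left₀ hP1.1 hP1.2 3
    unfold densH
    rw [← hH, hin]
    set y := a * Real.cos θ + b * Real.sin θ with hy
    have hyA : y ≤ A := by
      refine Real.le_sqrt_of_sq_le ?_
      have := Real.sin_sq_add_cos_sq θ
      have e : a ^ 2 + b ^ 2 - y ^ 2 = (a * Real.sin θ - b * Real.cos θ) ^ 2 +
          (a ^ 2 + b ^ 2) * (1 - (Real.sin θ ^ 2 + Real.cos θ ^ 2)) := by
        rw [hy]; ring
      rw [this] at e
      nlinarith [sq_nonneg (a * Real.sin θ - b * Real.cos θ)]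
    by_cases hy1 : 1 < y
    · have hApos : 0 < A := by linarith
      rw [if_pos (by linarith : 0 < y), if_neg hApos.ne', if_neg hApos.ne',
        max_eq_left (by linarith)]
      have e1 : (a / A * Real.cos θ + b / A * Real.sin θ) = y / A := by
        rw [hy]; field_simp
      rw [e1]
      have h2 : y - 1 ≤ y / A * M := by
        have h3 : A - 1 ≤ M := (by linarith : A - 1 ≤ ‖H‖ - 1).trans (le_max_left _ _)
        calc y - 1 ≤ y / A * (A - 1) := by
              rw [div_mul_eq_mul_div, le_div_iff₀ hApos]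
              nlinarith
          _ ≤ y / A * M := mul_le_mul_of_nonneg_left h3 (by positivity)
      have h4 : (y - 1) ^ 2 ≤ (y / A) ^ 2 * M ^ 2 := by
        rw [← mul_pow]
        exact pow_le_pow_left₀ (by linarith) h2 2
      calc pois (φ z) (L ⟨Real.cos θ, Real.sin θ⟩) ^ 3 * (y - 1) ^ 2 * hypArea φ z
          ≤ P ^ 3 * ((y / A) ^ 2 * M ^ 2) * hypArea φ z := by
            gcongr
        _ = _ := by ring
    · rw [max_eq_right (by linarith)]
      have : 0 ≤ (if 0 < y then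
        ((if A = 0 then 0 else a / A) * Real.cos θ + (if A = 0 then 0 else b / A) * Real.sin θ) ^ 2
        else 0) * (P ^ 3 * M ^ 2 * hypArea φ z) := by
        split_ifs <;> positivity
      simpa using this
  refine (lintegral_mono fun θ => ENNReal.ofReal_le_ofReal (hpt θ)).trans ?_
  have hK0 : 0 ≤ P ^ 3 * M ^ 2 * hypArea φ z := by positivity
  have e5 : ∀ θ : ℝ, ENNReal.ofReal ((if 0 < a * Real.cos θ + b * Real.sin θ then
        ((if A = 0 then 0 else a / A) * Real.cos θ + (if A = 0 then 0 else b / A) * Real.sin θ) ^ 2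
        else 0) * (P ^ 3 * M ^ 2 * hypArea φ z)) =
      ENNReal.ofReal (if 0 < a * Real.cos θ + b * Real.sin θ then
        ((if A = 0 then 0 else a / A) * Real.cos θ + (if A = 0 then 0 else b / A) * Real.sin θ) ^ 2
        else 0) * ENNReal.ofReal (P ^ 3 * M ^ 2 * hypArea φ z) := by
    intro θ
    rw [ENNReal.ofReal_mul (by split_ifs <;> positivity)]
  simp only [e5]
  rw [lintegral_mul_const' _ _ ENNReal.ofReal_ne_top]
  refine mul_le_mul_left ((half_circle _ _ a b).trans (ENNReal.ofReal_le_ofReal ?_)) _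
  have : (if A = 0 then (0 : ℝ) else a / A) ^ 2 + (if A = 0 then (0 : ℝ) else b / A) ^ 2 ≤ 1 := by
    by_cases h : A = 0
    · simp [h]
    · rw [if_neg h, if_neg h, div_pow, div_pow, ← add_div, ← hAs]
      have : A ^ 2 ≠ 0 := pow_ne_zero 2 h
      rw [div_self this]
  nlinarith

theorem dir_le {φ : ℂ → E4} (hp : ∀ z ∈ ball (0 : ℂ) 1, ‖φ z‖ < 1) :
    excessDir φ ≤ ENNReal.ofReal (Real.pi / 2) * excess φ := by
  unfold excessDir excess
  rw [← lintegral_const_mul' _ _ ENNReal.ofReal_ne_top]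
  refine setLIntegral_mono' isOpen_ball.measurableSet fun z hz => ?_
  exact iSup₂_le fun L _ => dir_point (hp z hz) L

end Pool.Agent.U1.HM
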